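import Pool.Agent.Helper17.SLD.Goals
import Pool.Agent.Helper42.SLC.Final

/-!
# Packet TY of project SLD (two types which differ at one place)
-/

namespace Pool.Agent.Helper17.SLD.PkTY

open Pool.Agent.Helper17.SL Pool.Agent.Helper42.SLC
open Pool.Agent.Helper51.SigLeo Pool.Agent.Helper51.SixExp NumberField Module TensorProduct

universe u v w x y z

/-- The annihilator of `n - 1` independent vectors of `k ^ n` is a line. -/
theorem line {k : Type*} [Field k] {n : ℕ} (hn : 1 ≤ n) (W : Fin (n - 1) → Fin n → k)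
    (hW : LinearIndependent k W) :
    ∃ c₀ : Fin n → k, c₀ ≠ 0 ∧
      ∀ c : Fin n → k, (∀ j, ∑ m, c m * W j m = 0) → ∃ a : k, c = a • c₀ := by
  let M : Matrix (Fin (n - 1)) (Fin n) k := W
  have hrank : M.rank = n - 1 := by
    have h1 : LinearIndependent k M.row := hW
    rw [h1.rank_matrix, Fintype.card_fin]
  have h2 := LinearMap.finrank_range_add_finrank_ker M.mulVecLin
  have h3 : finrank k (LinearMap.range M.mulVecLin) = n - 1 := hrank
  rw [h3, finrank_fin_fun] at h2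
  have h4 : finrank k (LinearMap.ker M.mulVecLin) = 1 := by omega
  obtain ⟨⟨c₀, hc₀⟩, hne, hall⟩ := finrank_eq_one_iff'.mp h4
  refine ⟨c₀, fun h ↦ hne (Subtype.ext h), fun c hc ↦ ?_⟩
  have hker : c ∈ LinearMap.ker M.mulVecLin := by
    rw [LinearMap.mem_ker, Matrix.mulVecLin_apply]
    funext j
    rw [Pi.zero_apply, ← hc j]
    show ∑ m, W j m * c m = ∑ m, c m * W j m
    exact Finset.sum_congr rfl fun m _ ↦ mul_comm _ _
  obtain ⟨a, ha⟩ := hall ⟨c, hker⟩
  exact ⟨a, (congrArg Subtype.val ha).symm⟩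

/-- Changing a CM type at one pair of conjugate embeddings. -/
theorem isCMType_symmDiff {K : Type*} [Field K] {S : Set (K →+* ℂ)} (hS : IsCMType S)
    (φ₀ : K →+* ℂ) : IsCMType (symmDiff S {φ₀, ComplexEmbedding.conjugate φ₀}) := by
  have hinv : ∀ φ : K →+* ℂ,
      ComplexEmbedding.conjugate (ComplexEmbedding.conjugate φ) = φ := fun φ ↦
    star_star φ
  have hmem : ∀ φ : K →+* ℂ, φ ∈ ({φ₀, ComplexEmbedding.conjugate φ₀} : Set (K →+* ℂ)) ↔
      ComplexEmbedding.conjugate φ ∈ ({φ₀, ComplexEmbedding.conjugate φ₀} : Set (K →+* ℂ)) := by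
    intro φ
    constructor
    · rintro (h | h)
      · right; rw [h]; rfl
      · left; rw [h, hinv]
    · rintro (h | h)
      · right; rw [← h, hinv]; rfl
      · left
        have h1 := congrArg ComplexEmbedding.conjugate h
        rw [hinv, hinv] at h1
        exact h1
  intro φ
  have h1 := hS φ
  have h2 := hmem φ
  rw [Set.mem_symmDiff, Set.mem_symmDiff]
  tauto

theorem thm (h1 : S_RX.{u, v, w, x, y, z}) : S_TY.{u, v, w, x, y, z} := by
  classical
  intro F _ _ _ K _ _ _ H _ _ N _ _ _ _ _ _ _ _ _ _ _ _ Ω _ _ _ _ p _ k _ _ _ _ ιinf ιp χ Λ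
    θ θ' s n τ hKF hF hn hχ hχ' hT hE hinj hv
  have hchar : CharZero k := charZero_of_padic p (k := k)
  obtain ⟨v, hv⟩ := hv
  obtain ⟨c₀, hc₀, hline⟩ := line (by omega) _ hv
  obtain ⟨m₀, hm₀⟩ := Function.ne_iff.mp hc₀
  set φ : Fin n → K →+* ℂ := fun m ↦ ιinf.comp ((τ m).comp (algebraMap K N)) with hφ
  refine ⟨φ m₀, fun S hS ↦ ?_⟩
  by_contra hcon
  rw [not_or] at hcon
  obtain ⟨hf, hf'⟩ := hcon
  set P : Set (K →+* ℂ) := {φ m₀, ComplexEmbedding.conjugate (φ m₀)} with hP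
  have hS' : IsCMType (symmDiff S P) := isCMType_symmDiff hS (φ m₀)
  -- the signs
  obtain ⟨c, hc0, hc, hce⟩ := h1 F K H N Ω p k ιinf ιp S χ Λ θ θ' n τ
    (fun m ↦ if φ m ∈ S then 1 else -1) hKF hF hS hχ hχ' hT hf hinj
    (fun i ↦ ⟨fun h ↦ if_pos h, fun h ↦ if_neg h⟩)
  obtain ⟨c', hc0', hc', hce'⟩ := h1 F K H N Ω p k ιinf ιp (symmDiff S P) χ Λ θ θ' n τ
    (fun m ↦ if φ m ∈ symmDiff S P then 1 else -1) hKF hF hS' hχ hχ' hT hf' hinj
    (fun i ↦ ⟨fun h ↦ if_pos h, fun h ↦ if_neg h⟩)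
  obtain ⟨a, rfl⟩ := hline c (fun j ↦ hc (v j))
  obtain ⟨a', rfl⟩ := hline c' (fun j ↦ hc' (v j))
  have ha : a ≠ 0 := fun h ↦ hc0 (by rw [h, zero_smul])
  have ha' : a' ≠ 0 := fun h ↦ hc0' (by rw [h, zero_smul])
  -- restrictions to `F`
  have hres : ∀ m, (φ m).comp (algebraMap F K) = ιinf.comp ((τ m).comp (algebraMap F N)) := by
    intro m
    ext x
    show ιinf (τ m (algebraMap K N (algebraMap F K x))) = ιinf (τ m (algebraMap F N x))
    rw [← IsScalarTower.algebraMap_apply]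
  have hPF : ∀ m, φ m ∈ P → m = m₀ := by
    intro m hm
    apply hinj
    show (τ m).comp (algebraMap F N) = (τ m₀).comp (algebraMap F N)
    have h2 : (φ m).comp (algebraMap F K) = (φ m₀).comp (algebraMap F K) := by
      rcases hm with h | h
      · rw [h]
      · rw [Set.mem_singleton_iff.mp h, ComplexEmbedding.conjugate_comp, conjugate_real]
    rw [hres, hres] at h2
    ext x
    apply ιinf.injective
    exact RingHom.congr_fun h2 x
  have hmP : φ m₀ ∈ P := Or.inl rfl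
  -- the values at `m₀` vanish
  have hzero : ∀ w, tw θ' (logUnits Λ (ιp.comp (τ m₀))) w = 0 := by
    intro w
    have e1 := hce w
    have e2 := hce' w
    simp only [Pi.smul_apply, smul_eq_mul, mul_assoc, ← Finset.mul_sum] at e1 e2
    have e1' := (mul_eq_zero.mp e1).resolve_left ha
    have e2' := (mul_eq_zero.mp e2).resolve_left ha'
    have e3 : ∑ m, c₀ m * (((if φ m ∈ S then 1 else -1) -
        (if φ m ∈ symmDiff S P then 1 else -1)) * vec Λ θ' (fun i ↦ ιp.comp (τ i)) w m) = 0 := by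
      have h5 : ∀ m, c₀ m * (((if φ m ∈ S then 1 else -1) -
          (if φ m ∈ symmDiff S P then 1 else -1)) * vec Λ θ' (fun i ↦ ιp.comp (τ i)) w m) =
          c₀ m * ((if φ m ∈ S then 1 else -1) * vec Λ θ' (fun i ↦ ιp.comp (τ i)) w m) -
          c₀ m * ((if φ m ∈ symmDiff S P then 1 else -1) *
            vec Λ θ' (fun i ↦ ιp.comp (τ i)) w m) := fun m ↦ by ring
      rw [Finset.sum_congr rfl fun m _ ↦ h5 m, Finset.sum_sub_distrib, e1', e2', sub_zero]
    rw [Finset.sum_eq_single m₀] at e3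
    · have h6 : ((if φ m₀ ∈ S then 1 else -1) -
        (if φ m₀ ∈ symmDiff S P then 1 else -1) : k) ≠ 0 := by
        have h2 : (2 : k) ≠ 0 := two_ne_zero
        by_cases hmS : φ m₀ ∈ S
        · have h7 : φ m₀ ∉ symmDiff S P := by
            rw [Set.mem_symmDiff]; tauto
          rw [if_pos hmS, if_neg h7]
          norm_num
        · have h7 : φ m₀ ∈ symmDiff S P := by
            rw [Set.mem_symmDiff]; tauto
          rw [if_neg hmS, if_pos h7]
          norm_num
      exact (mul_eq_zero.mp ((mul_eq_zero.mp e3).resolve_left hm₀)).resolve_left h6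
    · intro m _ hm
      have h7 : φ m ∉ P := fun h ↦ hm (hPF m h)
      have h8 : (φ m ∈ symmDiff S P) ↔ (φ m ∈ S) := by
        rw [Set.mem_symmDiff]; tauto
      by_cases hmS : φ m ∈ S
      · rw [if_pos hmS, if_pos (h8.mpr hmS), sub_self, zero_mul, mul_zero]
      · rw [if_neg hmS, if_neg (fun h ↦ hmS (h8.mp h)), sub_self, zero_mul, mul_zero]
    · intro h; exact absurd (Finset.mem_univ _) h
  -- another real place of `F`
  obtain ⟨s₂, hs₂⟩ : ∃ s₂ : F →+* ℂ, s₂ ≠ s := by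
    have hcard : 1 < Fintype.card (F →+* ℂ) := by
      rw [NumberField.Embeddings.card, hF]; omega
    exact Fintype.exists_ne_of_one_lt_card hcard s
  have hgal : ∀ r : F →+* ℂ, ∃ (ρ : N →+* ℂ), ρ.comp (algebraMap F N) = r := by
    intro r
    have : Algebra.IsAlgebraic F N := inferInstance
    exact exists_extend_embedding r
  obtain ⟨ρ, hρ⟩ := hgal s
  obtain ⟨ρ₂, hρ₂⟩ := hgal s₂
  obtain ⟨c₂, hc₂⟩ := Pool.Agent.Helper17.SL.PkGA7.thm F N ℂ ρ₂ (ComplexEmbedding.conjugate ρ₂) (by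
    rw [ComplexEmbedding.conjugate_comp, hρ₂, conjugate_real])
  have hne : θ' ≠ 1 := by
    intro h
    have h2 := (hE ρ₂ c₂ hc₂).2 (by rw [hρ₂]; exact hs₂)
    rw [h, MonoidHom.one_apply] at h2
    have h3 := congrArg (fun z : kˣ ↦ (z : k)) h2
    simp only [Units.val_one, Units.val_neg] at h3
    have h4 : (2 : k) = 0 := by linear_combination h3
    exact two_ne_zero h4
  obtain ⟨w, hw⟩ := nvp_holds F N Ω p k ιp Λ θ' (τ m₀) ρ hne (fun c hcc ↦ (hE ρ c hcc).1 hρ)
  exact hw (hzero w)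

end Pool.Agent.Helper17.SLD.PkTY
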